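import Pool.Agent.U188.Rings

/-!
# Finite generation of the adjoint rings of toroidal log canonical pairs

**The varieties.** Let `F i` be a form of degree `d i` in `n i + 1` variables whose zero set in the
projective `n i`-space is a smooth hypersurface, and let `H i` be the cyclic hypersurface
`w ^ (d i) = F i` in the projective `(n i + 1)`-space. Let `Y` be a quotient
`(H 1 × ... × H r) / G`, where `G` is any group of diagonal automorphisms
`w i ↦ ζ i * w i`, `ζ i ^ (d i) = 1`. Equivalently, the function field `K` of `Y` is generated by the
affine coordinates `x i j / x i 0` of the product of the projective `n i`-spaces and by roots `z j`,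
`z j ^ (m j) = ∏ i, (F i (x i) / x i 0 ^ (d i)) ^ (a j i)`, where `m j` divides `a j i * d i`. There is
no condition on the dimensions and the degrees. The toroidal modifications `X` of `Y` are given by the
subdivisions of the positive orthant into rational polyhedral cones; `fan` is the set of the cones,
each given by generators which are `Admissible`, that is, nonzero lattice points of the orthant.

**The pairs.** `(X, Δ i)`, `i < p`, are toroidal log canonical pairs: the log discrepancy of `(X, Δ i)`
at the toroidal divisor with the multiplicities `v` is `1 - c i v`, a function which is linear on the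
cones (`K_X + Δ i` is `ℚ`-Cartier), the coefficient of `Δ i` at the prime divisor of `X` which belongs
to a primitive generator `s` of a ray is `c i s`, and `c i s ≤ 1` (the pair is log canonical). It is not
assumed that `Δ i` is effective, that `X` is `ℚ`-factorial, or that some `Δ i` is big.

**The theorem.** The multigraded adjoint ring
`R(X; K_X + Δ 1, ..., K_X + Δ p) = ⨁ H⁰(X, ⌊∑ i, μ i (K_X + Δ i)⌋)`, the sum over all
`μ 1, ..., μ p ≥ 0`, is a finitely generated `ℂ`-algebra. In particular (`p = 1`) the log canonical ring
`⨁ H⁰(X, ⌊m (K_X + Δ)⌋)` of every such pair is finitely generated. For klt pairs with big `Δ i` the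
finite generation is the theorem of Birkar, Cascini, Hacon and McKernan (for the ring of one klt pair
bigness is not needed); for log canonical pairs it is open, and it is equivalent to the existence of
good minimal models for log canonical pairs.

**The minimal model program.** If `K_X + Δ` and an ample divisor `H`, with `(X, Δ + H)` toroidal and log
canonical, are chosen and `X` is `ℚ`-factorial, then the finite generation of the ring of
`K_X + Δ`, `K_X + Δ + H` (and of further toroidal pairs which span the group of divisor classes)
gives the finiteness of the models of the divisors `K_X + Δ + t H`, `0 ≤ t ≤ 1`, so that the minimal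
model program with scaling of `H` ends (Kaloghiros, Küronya, Lazić, Finite generation and geography
of models; not formalised here).

**Sections.** The elements of the ring are the functions `f` of `N = dim X` rational vector fields `D`
with values in the polynomials in `p` variables over `K` (`Pool.Agent.Q57.FG.secRing`), such that the
coefficient of `f` of every multidegree `μ` is a section of `∑ i, μ i (K_X + Δ i)`
(`Pool.Agent.Q57.FG.MSec`): a rational section of the `∑ i, μ i`-th power of the canonical bundle whose
order at every prime divisor `P` over `X` (every divisorial place `P` of `K`) is at least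
`- ∑ i, μ i * c i v`, where `v = multiplicities F d x P`. This is the condition for the sections, since
`c i v` is at least the coefficient of the pullback of `K_X + Δ i` at `P`, with equality if `P` is a
prime divisor on `X`.

The proof is in `Pool/Agent/Q57/FH` and `Pool/Agent/U188/Rings.lean`.
-/

set_option autoImplicit false

open FF MvPolynomial Pool.Agent.W602.GT

namespace Pool.Agent.Results.MP_c1e25c_ag.AdjointRings

/-- The form `F` has no singular zeros: its partial derivatives have no common zero but `0`. -/
def Smooth {n : ℕ} (F : MvPolynomial (Fin (n + 1)) ℂ) : Prop :=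
  ∀ x : Fin (n + 1) → ℂ, x ≠ 0 → ∃ l, eval x (pderiv l F) ≠ 0

section fans

variable {r R : ℕ}

/-- The multiplicities which satisfy the divisibility conditions. -/
def Admissible (m : Fin R → ℕ) (a : Fin R → Fin r → ℕ) (v : Fin r → ℕ) : Prop :=
  v ≠ 0 ∧ ∀ j, m j ∣ ∑ i, a j i * v i

/-- The vector `v` is in the cone which is generated by the vectors in `σ`. -/
def InCone (σ : Finset (Fin r → ℕ)) (v : Fin r → ℕ) : Prop :=
  ∃ w : (Fin r → ℕ) → ℚ, (∀ s, 0 ≤ w s) ∧ ∀ k, (v k : ℚ) = ∑ s ∈ σ, w s * s k

/-- `fan` is a finite set of cones, generated by admissible vectors, which cover all admissible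
vectors. -/
structure IsFan (m : Fin R → ℕ) (a : Fin R → Fin r → ℕ) (fan : Finset (Finset (Fin r → ℕ))) :
    Prop where
  adm : ∀ σ ∈ fan, ∀ s ∈ σ, Admissible m a s
  cover : ∀ v, Admissible m a v → ∃ σ ∈ fan, InCone σ v

/-- The pair with the log discrepancies `1 - c v`: the log discrepancy is a linear function of the
admissible vectors `v` of each cone (`K_X + Δ` is `ℚ`-Cartier), `c 0 = 0`, and `c s ≤ 1` for the
generators `s` of the cones (the pair is log canonical). -/
structure IsLogCanonicalPair (m : Fin R → ℕ) (a : Fin R → Fin r → ℕ)
    (fan : Finset (Finset (Fin r → ℕ))) (c : (Fin r → ℕ) → ℚ) : Prop where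
  zero : c 0 = 0
  linear : ∀ σ ∈ fan, ∃ u : Fin r → ℚ, ∀ v, Admissible m a v → InCone σ v →
    1 - c v = ∑ k, u k * v k
  le_one : ∀ σ ∈ fan, ∀ s ∈ σ, c s ≤ 1

end fans

section places

variable {r : ℕ} {n : Fin r → ℕ} {K : Type} [Field K] [Algebra ℂ K]

/-- The affine coordinates of the product of the projective spaces. -/
noncomputable def affine (x : ∀ i, Fin (n i + 1) → K) (b : (i : Fin r) × Fin (n i)) : K :=
  x b.1 b.2.succ / x b.1 0

/-- The minimal order at `P` of the homogeneous coordinates `y`. -/
noncomputable def minimalOrder {n : ℕ} (y : Fin (n + 1) → K) (P : Place ℂ K) : ℤ :=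
  Finset.univ.inf' Finset.univ_nonempty fun j => P.ord (y j)

/-- The multiplicities of the hypersurfaces `F i = 0` along the prime divisor `P`; the `x i j` are the
homogeneous coordinates of the `i`-th factor, which are divided by one of minimal order at `P`. -/
noncomputable def multiplicities (F : ∀ i, MvPolynomial (Fin (n i + 1)) ℂ) (d : Fin r → ℕ)
    (x : ∀ i, Fin (n i + 1) → K) (P : Place ℂ K) (i : Fin r) : ℕ :=
  (P.ord (aeval (x i) (F i)) - d i * minimalOrder (x i) P).toNat

end places

/-- **Finite generation.** Let `K` be the function field of an abelian cover `Y` of the product of the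
projective `n i`-spaces which is branched along smooth hypersurfaces `F i = 0` of the factors, `X` the
toroidal modification of `Y` which is given by `fan`, and `(X, Δ i)`, `i < p`, toroidal log canonical
pairs with the log discrepancies `1 - c i v`. The multigraded ring of the sections of the divisors
`∑ i, μ i (K_X + Δ i)`, `μ i ≥ 0`, is a finitely generated algebra over `ℂ`. -/
theorem result (r N R p : ℕ) (n d : Fin r → ℕ) (hr : 1 ≤ r) (hn : ∀ i, 1 ≤ n i)
    (hd : ∀ i, 1 ≤ d i) (hN : N = ∑ i, n i)
    (F : ∀ i, MvPolynomial (Fin (n i + 1)) ℂ) (hF : ∀ i, (F i).IsHomogeneous (d i))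
    (hs : ∀ i, Smooth (F i)) (m : Fin R → ℕ) (hm : ∀ j, 1 ≤ m j) (a : Fin R → Fin r → ℕ)
    (hdiv : ∀ j i, m j ∣ a j i * d i)
    (K : Type) [Field K] [Algebra ℂ K] (x : ∀ i, Fin (n i + 1) → K) (hx0 : ∀ i, x i 0 ≠ 0)
    (hbas : IsTranscendenceBasis ℂ (affine x)) (z : Fin R → K)
    (hz : ∀ j, z j ^ m j = ∏ i, (aeval (x i) (F i) / x i 0 ^ d i) ^ a j i)
    (hgen : IntermediateField.adjoin ℂ (Set.range (affine x) ∪ Set.range z) = ⊤)
    (fan : Finset (Finset (Fin r → ℕ))) (hfan : IsFan m a fan)
    (c : Fin p → (Fin r → ℕ) → ℚ) (hpair : ∀ i, IsLogCanonicalPair m a fan (c i))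
    (δ : Fin p → Place ℂ K → ℚ) (hδ : ∀ i P, δ i P = c i (multiplicities F d x P)) :
    (Pool.Agent.Q57.FG.secRing N δ).FG :=
  Pool.Agent.U188.Rings.main (N := N) hr hn hN hd hF hs hx0 hbas hm hdiv hz hgen (S := fan)
    (fun i => (hpair i).zero) hfan.adm hfan.cover (fun i => (hpair i).linear)
    (fun i => (hpair i).le_one) hδ

end Pool.Agent.Results.MP_c1e25c_ag.AdjointRings
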