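import Pool.Agent.U660.MD.Nef
import Pool.Agent.U189.ND.Defs
import Pool.Agent.U189.MG.Trm

/-!
# Finitely many good log terminal models for all toroidal pairs on the covers branched along normal
# crossing hypersurfaces

**The varieties.** Let `F k`, `k = 0, ..., n`, be forms of degrees `d k` in `n + 1` variables whose
zero sets in the projective `n`-space are smooth hypersurfaces with normal crossings, `Y` a normal
abelian cover of the projective space which is branched only along these hypersurfaces, and `X` the
toroidal modification of `Y` which is given by `fan` (see `Pool/Agent/U189/ND/Defs.lean`, where the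
definitions `NormalCrossings`, `Admissible`, `InCone`, `IsFan`, `affine`, `minimalOrder`,
`multiplicities` and `coefficient` are explained). `D 1, ..., D p` are toroidal `ℚ`-Cartier divisors on
`X`, for instance generators of all of them; the coefficients of their pullbacks at the prime divisors
`P` over `X` are the `δ i P`. `X` is projective and some rational combination of the `D i` is ample
(`IsSmallModification n δ δ`: the combinations near some combination are semiample).

**The pairs.** Let `(X, Δ)` be a log canonical pair whose class `K_X + Δ` is a real combination
`∑ i, w i * D i`. For instance `Δ` is a combination with coefficients in `[0, 1]` of the prime divisors of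
the boundary of `X` (the canonical class of `X` is toroidal: `K_X` plus the reduced boundary of `X` is
`∑ k, d k - (n + 1)` times the hyperplane class). If `n ≥ 3`, if every generator of a ray has at most `n - 1`
positive coordinates and if the `D i` generate the toroidal divisors of a `ℚ`-factorial `X`, then every
pair on `X` has such a class (Lefschetz; this remark is not used and not proved here).

**The models.** Let `X'` be a projective variety with a birational map `X --> X'` whose inverse contracts
no divisor, on which the images of the `D i` are `ℚ`-Cartier and some combination of them is ample. The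
coefficients of the pullbacks of the images of the `D i` at the prime divisors `P` over `X` are the
`δ' i P`. The sections of the integral combinations on `X` are sections of the images. Suppose that the
prime divisors `E` on `X` which are contracted are combinations of the `D i`. Then for a combination
`lam = ∑ t E * E + L`, where all `t E > 0` and `L` is the pullback to `X` of an ample combination on `X'`,
the rational combinations near `lam` are semiample on `X'` and their multiples have the same sections
on `X` and on `X'`. This is `IsModel`. (If `X` is `ℚ`-factorial and the `D i` generate the divisor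
classes, the models are all `ℚ`-factorial birational contractions of `X`, as they appear in the
minimal model programs for all pairs on `X`.)

**The theorem.** There are finitely many models `X 1, ..., X M` and rational polyhedral cones
`C 1, ..., C M` of real combinations such that:
(1) for all integral `ν` in `C j` the combination has the same sections on `X` and on `X j`, and the
multiple `k ν` is base point free on `X j`; the number `k` is the same for all `ν` and `j`. In
particular all real combinations in `C j` are semiample on `X j`: they are combinations, with
coefficients `≥ 0`, of base point free integral ones.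
(2) every pseudo-effective real combination `w` (a limit of rational combinations which have a multiple
with a section) is in one of the `C j`, such that, for every prime divisor `P` over `X`, either the
coefficients of all `D i` at `P` are the same on `X` and on `X j`, or the coefficient of `w` at `P` is
smaller on `X j` than on `X`.

For the pairs `(X, Δ)` above with `K_X + Δ` pseudo-effective: the log discrepancy of `(X j, Δ j)` at `P` minus
that of `(X, Δ)` is `∑ i, w i * δ i P - ∑ i, w i * δs j i P ≥ 0`, and it is positive unless all coefficients
at `P` are the same, in particular if `P` is a prime divisor on `X` which is contracted. So `(X j, Δ j)`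
is a log terminal model of `(X, Δ)` (for log canonical pairs: log minimal model), which is good:
`K + Δ j` is semiample. So all these log canonical pairs have good log minimal models, and finitely
many models are enough for all boundaries. This is known for klt pairs with big boundary (Birkar,
Cascini, Hacon, McKernan), and open in general.

**Proof.** New is the finite generation of the Cox ring of `X` (`Pool/Agent/U189/NF`), and the deduction
of the models from it in terms of sections and orders (`Pool/Agent/U189/MG`, with the polyhedral
library `Pool/Agent/U660/MD` of `helper660`): the generic combinations near `w + t A`, `A` ample, `t → 0`,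
are in finitely many chambers; the dual solutions of the linear programs for the asymptotic orders at
`P` of the combinations in a chamber define the coefficients on the model.
-/

set_option autoImplicit false

open FF MvPolynomial Pool.Agent.W602.GT

namespace Pool.Agent.Results.MP_c1e25c_ag.NormalCrossingModels

open Pool.Agent.Results.MP_89a3f8_ag.TerminationOfFlips
  (IsSection BasePointFree Semiample IsSmallModification)
open Pool.Agent.U660.MD (coneOf)
open Pool.Agent.U189.ND

section defs

variable {K : Type} [Field K] [Algebra ℂ K] {p : ℕ} (N : ℕ) (δ : Fin p → Place ℂ K → ℚ)

/-- The coefficients `δ'` are those of the images of the `D i` on a model `X'` of `X` on which they are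
`ℚ`-Cartier and some rational combination of them is ample: all sections of integral combinations on `X`
are sections on `X'`; and for some combination `lam` all rational combinations near `lam` are
semiample on `X'`, and their integral multiples have the same sections on `X` and on `X'`. -/
def IsModel (δ' : Fin p → Place ℂ K → ℚ) : Prop :=
  (∀ (μ : Fin p → ℤ) (f : K), IsSection N δ μ f → IsSection N δ' μ f) ∧
    ∃ (lam : Fin p → ℚ) (ε : ℚ), 0 < ε ∧ ∀ μ : Fin p → ℚ, (∀ i, |μ i - lam i| ≤ ε) →
      Semiample N δ' μ ∧ ∀ (k : ℕ) (ν : Fin p → ℤ), (∀ i, (k : ℚ) * μ i = ν i) →
        ∀ f : K, IsSection N δ' ν f → IsSection N δ ν f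

/-- The real combination `∑ i, w i * D i` is pseudo-effective: it is a limit of rational combinations
which have a positive integral multiple with a nonzero section. (If some combination of the `D i` is
ample, this is the usual notion.) -/
def IsPseudoeffective (w : Fin p → ℝ) : Prop :=
  ∀ ε : ℝ, 0 < ε → ∃ μ : Fin p → ℚ, (∀ i, |(μ i : ℝ) - w i| ≤ ε) ∧
    ∃ k : ℕ, 1 ≤ k ∧ ∃ ν : Fin p → ℤ, (∀ i, (k : ℚ) * μ i = ν i) ∧
      ∃ s : K, s ≠ 0 ∧ IsSection N δ ν s

end defs

/-- **Finitely many good log terminal models.** Let `K` be the function field of an abelian cover `Y` of
the projective `n`-space which is branched along `n + 1` hypersurfaces `F k = 0` with normal crossings,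
`X` the toroidal modification of `Y` which is given by `fan`, and `D i`, `i < p`, toroidal `ℚ`-Cartier
divisors on `X` with the degrees `β i` and the coefficients `c i`, some rational combination of which is
ample on `X`. There are finitely many models `δs j` and rational polyhedral cones `coneOf (h j)` and
`k ≥ 1` such that for all integral `ν` in the cone of `j` the combination `k ν` is base point free on the
model `j`, and `ν` has the same sections on `X` and on this model; and every pseudo-effective real
combination `w` is in the cone of some `j` such that for every prime divisor `P` over `X` the coefficients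
of all `D i` at `P` are the same on the model `j` as on `X` or the coefficient of `w` at `P` is smaller on
the model `j` than on `X`. -/
theorem result (n R p : ℕ) (hn : 1 ≤ n) (d : Fin (n + 1) → ℕ) (hd : ∀ k, 1 ≤ d k)
    (F : Fin (n + 1) → MvPolynomial (Fin (n + 1)) ℂ) (hF : ∀ k, (F k).IsHomogeneous (d k))
    (hs : NormalCrossings F) (m : Fin R → ℕ) (hm : ∀ j, 1 ≤ m j) (a : Fin R → Fin (n + 1) → ℕ)
    (hdiv : ∀ j, m j ∣ ∑ k, a j k * d k)
    (K : Type) [Field K] [Algebra ℂ K] (x : Fin (n + 1) → K) (hx0 : x 0 ≠ 0)
    (hbas : IsTranscendenceBasis ℂ (affine x)) (z : Fin R → K)
    (hz : ∀ j, z j ^ m j = ∏ k, (aeval x (F k) / x 0 ^ d k) ^ a j k)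
    (hgen : IntermediateField.adjoin ℂ (Set.range (affine x) ∪ Set.range z) = ⊤)
    (fan : Finset (Finset (Fin (n + 1) → ℕ))) (hfan : IsFan m a fan)
    (c : Fin p → (Fin (n + 1) → ℕ) → ℚ) (hc0 : ∀ i, c i 0 = 0) (β : Fin p → ℤ)
    (u : Finset (Fin (n + 1) → ℕ) → Fin p → Fin (n + 1) → ℚ)
    (hlin : ∀ σ ∈ fan, ∀ i v, Admissible m a v → InCone σ v → - c i v = ∑ k, u σ i k * v k)
    (δ : Fin p → Place ℂ K → ℚ) (hδ : ∀ i P, δ i P = coefficient F d x (c i) (β i) P)
    (hX : IsSmallModification n δ δ) :
    ∃ (k M : ℕ) (δs : Fin M → Fin p → Place ℂ K → ℚ) (B : Fin M → ℕ)
      (h : ∀ j, Fin (B j) → Fin p → ℤ), 1 ≤ k ∧ (∀ j, IsModel n δ (δs j)) ∧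
      (∀ (j : Fin M) (ν : Fin p → ℤ), (fun i => (ν i : ℝ)) ∈ coneOf (h j) →
        BasePointFree n (δs j) (k • ν) ∧
          ∀ f : K, IsSection n δ ν f ↔ IsSection n (δs j) ν f) ∧
      ∀ w : Fin p → ℝ, IsPseudoeffective n δ w → ∃ j, w ∈ coneOf (h j) ∧
        ∀ P : Place ℂ K, Divisorial n P → (∀ i, δs j i P = δ i P) ∨
          ∑ i, w i * (δs j i P : ℝ) < ∑ i, w i * (δ i P : ℝ) := by
  have hFG := cox_nc n R p hn d hd F hF hs m hm a hdiv K x hx0 hbas z hz hgen fan hfan c hc0 β u
    hlin δ hδ
  obtain ⟨lam0, hsm⟩ := (Pool.Agent.U660.MD.small_iff δ δ).1 hX
  obtain ⟨k, M, δs, B, h, hk, hM, hC, hw⟩ := Pool.Agent.U189.MG.models hFG ⟨lam0, hsm⟩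
  refine ⟨k, M, δs, B, h, hk, fun j => ?_, hC, hw⟩
  obtain ⟨lam, h1, h2⟩ := hM j
  exact ⟨h1, lam, h2⟩

end Pool.Agent.Results.MP_c1e25c_ag.NormalCrossingModels
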