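import Pool.Agent.U660.MD.Nef
import Pool.Agent.U189.ND.Defs
import Pool.Agent.U189.MG.Scm

/-!
# The minimal model program with scaling on the covers branched along normal crossing hypersurfaces

**The varieties.** Let `F k`, `k = 0, ..., n`, be forms of degrees `d k` in `n + 1` variables whose
zero sets in the projective `n`-space are smooth hypersurfaces with normal crossings, `Y` a normal
abelian cover of the projective space which is branched only along these hypersurfaces, and `X` the
toroidal modification of `Y` which is given by `fan` (see `Pool/Agent/U189/ND/Defs.lean`, where the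
definitions `NormalCrossings`, `Admissible`, `InCone`, `IsFan`, `affine`, `minimalOrder`,
`multiplicities` and `coefficient` are explained). `D 1, ..., D p` are toroidal `ℚ`-Cartier divisors on
`X`, for instance generators of all of them; the coefficients of their pullbacks at the prime divisors
`P` over `X` are the `δ i P`. If `n ≥ 3`, if every generator of a ray has at most `n - 1` positive
coordinates and if the `D i` generate the toroidal divisors of a `ℚ`-factorial `X`, then all divisors on
`X` are rational combinations of the `D i` up to `ℚ`-linear equivalence (Lefschetz; this remark is not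
used and not proved here).

**The models.** Let `X'` be a projective variety with a birational map `X --> X'` whose inverse contracts
no divisor, on which the images of the `D i` are `ℚ`-Cartier and some combination of them is ample. The
coefficients of the pullbacks of the images of the `D i` at the prime divisors `P` over `X` are the
`δ' i P`. The sections of the integral combinations on `X` are sections of the images. Suppose that the
prime divisors `E` on `X` which are contracted are combinations of the `D i`. Then for a combination
`x = ∑ t E * E + L`, where all `t E > 0` and `L` is the pullback to `X` of an ample combination on `X'`,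
the rational combinations near `x` are semiample on `X'` and their multiples have the same sections
on `X` and on `X'`. This is `IsAmpleModel`: the class `x` is ample on `X'`. For `X' = X` (or a small
modification of `X`) the condition says that `x` is ample. If `X` is `ℚ`-factorial and the `D i` generate
the divisor classes, all birational contractions `X'` of `X` with `ℚ`-factorial `X'` are models.

**The minimal model program with scaling.** Let `X'` be a model, for instance `X' = X`, and let
`(X', Δ')` be a log canonical pair whose class `K_X' + Δ'` is the image of a real combination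
`w = ∑ i, w i * D i`. For an ample class `α` on `X'` the `w`-program with scaling of `α` is the sequence of
the ample models of the classes `(1 - t) α + t w`, `0 ≤ t < 1`. The theorem says that it exists and is
finite, for all real `w` and all sufficiently general ample `α` (near every ample class `lam` there is
such an `α`): there are numbers `0 = s 0 < s 1 < ... < s (k + 1) ≤ 1` and models `X 0 = X', X 1, ..., X k` such
that `(1 - t) α + t w` is ample on `X j` for `s j < t < s (j + 1)`. At `t = s j`, `1 ≤ j ≤ k`, the class
`θ = (1 - t) α + t w` is a limit of ample classes on `X (j - 1)` and on `X j` (and semiample, by the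
rationality of the cones); it defines contractions `X (j - 1) → Z ← X j`, and `θ - η w` is ample on
`X (j - 1)`, `θ + η w` is ample on `X j` for small `η > 0` (up to positive multiples these are the classes
`(1 - t') α + t' w` with `t' < t`, `t' > t`): so `- w` is ample over `Z` on `X (j - 1)` and `w` is ample over
`Z` on `X j`. This is a divisorial contraction or a flip for `w` (of a face of the cone of curves; or an
isomorphism). For all prime divisors `P` over `X`: either all `D i` have the same coefficients at `P` on
`X (j - 1)` and on `X j`, or the coefficient of `w` becomes smaller (the log discrepancy of `P` increases).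
The last model `X k` has one of the following properties.
1. `s (k + 1) = 1`, and `w` is in a rational polyhedral cone which is spanned by combinations without
base points on `X k` and with the same sections as on `X`. So `w` is nef and semiample on `X k`: a good
log minimal model.
2. `s (k + 1) < 1`, and `w` and all `(1 - t) α + t w` with `t > s (k + 1)` are not pseudo-effective. Then
`θ = (1 - t) α + t w`, `t = s (k + 1)`, is semiample on `X k` (it is in a cone as in 1) and not big, because
the multiples of nearby combinations have no sections. It defines `X k → Z` with `dim Z < dim X`, and `- w`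
is ample over `Z`: a Mori fibre space for `w`.

For all log canonical pairs `(X, Δ)` with `K_X + Δ` in the real span of the `D i` this gives a finite
program which ends in a good minimal model or in a Mori fibre space, as Question Q1 asks.

**Relation to the other results.** `MP_c1e25c_ag.NormalCrossingModels` gives finitely many good minimal
models for the pseudo-effective classes on the same `X` (not as the result of a program), and
`MP_a27c81_ag.NormalCrossingPrograms` gives the termination of every sequence of steps (without the
existence of the steps). New here: the existence of the steps, the program with scaling from any model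
`X'`, its last model, and the classes which are not pseudo-effective (Mori fibre spaces).

**Proof.** The Cox ring of `X` is finitely generated (`Pool/Agent/U189/NF`). Outside of finitely many
rational hyperplanes the asymptotic orders at all prime divisors over `X` are linear, and define the
coefficients on a model. An ample class `α` outside of these hyperplanes is connected with `w` by a
segment which meets each of them at most once before `w`. The comparison of the coefficients follows
from the convexity of the asymptotic orders (`Pool/Agent/U189/MG/Chm.lean`, `Scl.lean`, `Scm.lean`).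
-/

set_option autoImplicit false

open FF MvPolynomial Pool.Agent.W602.GT

namespace Pool.Agent.Results.MP_c1e25c_ag.NormalCrossingScaling

open Pool.Agent.Results.MP_89a3f8_ag.TerminationOfFlips (IsSection BasePointFree Semiample)
open Pool.Agent.U660.MD (coneOf)
open Pool.Agent.U189.ND

section defs

variable {K : Type} [Field K] [Algebra ℂ K] {p : ℕ} (N : ℕ) (δ : Fin p → Place ℂ K → ℚ)

/-- The coefficients `δ'` are those of the images of the `D i` on a model `X'` of `X` on which the real
combination `x` is ample: all sections of integral combinations on `X` are sections on `X'`; and all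
rational combinations `μ` near `x` are semiample on `X'`, and their integral multiples have the same
sections on `X` and on `X'`. -/
def IsAmpleModel (δ' : Fin p → Place ℂ K → ℚ) (x : Fin p → ℝ) : Prop :=
  (∀ (μ : Fin p → ℤ) (f : K), IsSection N δ μ f → IsSection N δ' μ f) ∧
    ∃ ε : ℝ, 0 < ε ∧ ∀ μ : Fin p → ℚ, (∀ i, |(μ i : ℝ) - x i| ≤ ε) →
      Semiample N δ' μ ∧ ∀ (k : ℕ) (ν : Fin p → ℤ), (∀ i, (k : ℚ) * μ i = ν i) →
        ∀ f : K, IsSection N δ' ν f → IsSection N δ ν f

/-- The real combination `∑ i, w i * D i` is pseudo-effective: it is a limit of rational combinations
which have a positive integral multiple with a nonzero section. (If some combination of the `D i` is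
ample, this is the usual notion.) -/
def IsPseudoeffective (w : Fin p → ℝ) : Prop :=
  ∀ ε : ℝ, 0 < ε → ∃ μ : Fin p → ℚ, (∀ i, |(μ i : ℝ) - w i| ≤ ε) ∧
    ∃ k : ℕ, 1 ≤ k ∧ ∃ ν : Fin p → ℤ, (∀ i, (k : ℚ) * μ i = ν i) ∧
      ∃ s : K, s ≠ 0 ∧ IsSection N δ ν s

/-- The point `(1 - t) α + t w` of the segment from the rational combination `α` to `w`. -/
def between (α : Fin p → ℚ) (w : Fin p → ℝ) (t : ℝ) : Fin p → ℝ :=
  fun i => (1 - t) * α i + t * w i

end defs

/-- **The minimal model program with scaling.** Let `K` be the function field of an abelian
cover `Y` of the projective `n`-space which is branched along `n + 1` hypersurfaces `F k = 0` with normal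
crossings, `X` the toroidal modification of `Y` which is given by `fan`, and `D i`, `i < p`, toroidal
`ℚ`-Cartier divisors on `X` with the degrees `β i` and the coefficients `c i`. Let the model
`X'` of `X` (with the coefficients `δ'`) have the ample class `lam`, let `w` be a real combination and
`ε > 0`. There is an ample class `α` at distance at most `ε` from `lam`, and there are numbers
`0 = s 0 < ... < s (k + 1) ≤ 1` and models `X 0 = X', ..., X k` of `X` (with the coefficients `δs j`) such that:
`(1 - t) α + t w` is ample on `X j` for `s j < t < s (j + 1)`; for `j < j'` and every prime divisor `P` over `X`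
the coefficients of all `D i` at `P` are the same on `X j` and `X j'`, or the coefficient of `w` at `P` is
smaller on `X j'`; the class `(1 - t) α + t w` for `t = s (k + 1)` is in a cone which is spanned by finitely
many integral combinations without base points on `X k`, whose integral points have the same sections
on `X` and on `X k`; and either `s (k + 1) = 1` (so this class is `w`), or `s (k + 1) < 1` and
`(1 - t) α + t w` is not pseudo-effective for all `t > s (k + 1)`. -/
theorem result (n R p : ℕ) (hn : 1 ≤ n) (d : Fin (n + 1) → ℕ) (hd : ∀ k, 1 ≤ d k)
    (F : Fin (n + 1) → MvPolynomial (Fin (n + 1)) ℂ) (hF : ∀ k, (F k).IsHomogeneous (d k))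
    (hs : NormalCrossings F) (m : Fin R → ℕ) (hm : ∀ j, 1 ≤ m j) (a : Fin R → Fin (n + 1) → ℕ)
    (hdiv : ∀ j, m j ∣ ∑ k, a j k * d k)
    (K : Type) [Field K] [Algebra ℂ K] (x : Fin (n + 1) → K) (hx0 : x 0 ≠ 0)
    (hbas : IsTranscendenceBasis ℂ (affine x)) (z : Fin R → K)
    (hz : ∀ j, z j ^ m j = ∏ k, (aeval x (F k) / x 0 ^ d k) ^ a j k)
    (hgen : IntermediateField.adjoin ℂ (Set.range (affine x) ∪ Set.range z) = ⊤)
    (fan : Finset (Finset (Fin (n + 1) → ℕ))) (hfan : IsFan m a fan)
    (c : Fin p → (Fin (n + 1) → ℕ) → ℚ) (hc0 : ∀ i, c i 0 = 0) (β : Fin p → ℤ)
    (u : Finset (Fin (n + 1) → ℕ) → Fin p → Fin (n + 1) → ℚ)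
    (hlin : ∀ σ ∈ fan, ∀ i v, Admissible m a v → InCone σ v → - c i v = ∑ k, u σ i k * v k)
    (δ : Fin p → Place ℂ K → ℚ) (hδ : ∀ i P, δ i P = coefficient F d x (c i) (β i) P)
    (δ' : Fin p → Place ℂ K → ℚ) (lam : Fin p → ℚ)
    (hX' : IsAmpleModel n δ δ' fun i => (lam i : ℝ)) (w : Fin p → ℝ) (ε : ℝ) (hε : 0 < ε) :
    ∃ α : Fin p → ℚ, (∀ i, |(α i : ℝ) - lam i| ≤ ε) ∧
      ∃ (k : ℕ) (s : Fin (k + 2) → ℝ) (δs : Fin (k + 1) → Fin p → Place ℂ K → ℚ),
        StrictMono s ∧ s 0 = 0 ∧ s (Fin.last _) ≤ 1 ∧
        (∀ P : Place ℂ K, Divisorial n P → ∀ i, δs 0 i P = δ' i P) ∧
        (∀ (j : Fin (k + 1)) (t : ℝ), s j.castSucc < t → t < s j.succ →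
          IsAmpleModel n δ (δs j) (between α w t)) ∧
        (∀ j j' : Fin (k + 1), j < j' → ∀ P : Place ℂ K, Divisorial n P →
          (∀ i, δs j' i P = δs j i P) ∨
            ∑ i, w i * (δs j' i P : ℝ) < ∑ i, w i * (δs j i P : ℝ)) ∧
        (∃ (B : ℕ) (h : Fin B → Fin p → ℤ),
          (∀ b, BasePointFree n (δs (Fin.last _)) (h b)) ∧
          (∀ ν : Fin p → ℤ, (fun i => (ν i : ℝ)) ∈ coneOf h → ∀ f : K,
            IsSection n (δs (Fin.last _)) ν f ↔ IsSection n δ ν f) ∧
          between α w (s (Fin.last _)) ∈ coneOf h) ∧
        (s (Fin.last _) = 1 ∨ s (Fin.last _) < 1 ∧ ∀ t, s (Fin.last _) < t →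
          ¬ IsPseudoeffective n δ (between α w t)) :=
  Pool.Agent.U189.MG.scaling (cox_nc n R p hn d hd F hF hs m hm a hdiv K x hx0 hbas z hz hgen fan hfan
    c hc0 β u hlin δ hδ) (Pool.Agent.U189.MG.mdl_of_mdlR hX') w hε

end Pool.Agent.Results.MP_c1e25c_ag.NormalCrossingScaling
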