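import Pool.Agent.U660.MD.Nef
import Pool.Agent.Q57.CX.Top
import Pool.Agent.U189.MG.Trm

/-!
# Finitely many good log terminal models for all toroidal pairs on the covers of products of projective
# spaces

**The varieties.** Let `F i` be a form of degree `d i` in `n i + 1` variables whose zero set in the
projective `n i`-space is a smooth hypersurface, and let `H i` be the cyclic hypersurface
`w ^ (d i) = F i` in the projective `(n i + 1)`-space. Let `Y` be a quotient `(H 1 × ... × H r) / G`, where
`G` is any group of diagonal automorphisms `w i ↦ ζ i * w i`, `ζ i ^ (d i) = 1`: an abelian cover of the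
product of the projective `n i`-spaces which is branched along the hypersurfaces `F i = 0` of the
factors. Its function field `K` is generated by the affine coordinates `x i j / x i 0` and by roots `z j`,
`z j ^ (m j) = ∏ i, (F i (x i) / x i 0 ^ (d i)) ^ (a j i)`, where `m j` divides `a j i * d i`. `X` is the
toroidal modification of `Y` which is given by `fan`, and `D 1, ..., D p` are toroidal `ℚ`-Cartier divisors
on `X`; the coefficients of their pullbacks at the prime divisors `P` over `X` are the `δ i P`. See
`Pool.Agent.Results.MP_89a3f8_ag.TerminationOfFlips`, whose definitions (`Smooth`, `Admissible`,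
`InCone`, `IsFan`, `affine`, `minimalOrder`, `multiplicities`, `coefficient`, `IsSection`,
`BasePointFree`, `Semiample`, `IsSmallModification`) are used here. If all `n i ≥ 3` and if the `D i`
generate the toroidal divisors of a `ℚ`-factorial `X` then all divisors on `X` are rational combinations of
the `D i` up to `ℚ`-linear equivalence (Lefschetz; this remark is not used and not proved here). There is
no condition on the dimensions and the degrees.
`X` is projective and some rational combination of the `D i` is ample (`IsSmallModification N δ δ`: the
combinations near some combination are semiample).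

**The pairs.** Let `(X, Δ)` be a log canonical pair whose class `K_X + Δ` is a real combination
`∑ i, w i * D i`. For instance `Δ` is a combination with coefficients in `[0, 1]` of the prime divisors of
the boundary of `X` (`K_X` plus the reduced boundary of `X` is `∑ i, (d i - n i - 1) * H i`, where `H i` is
the hyperplane class of the `i`-th factor), and of general members of free linear systems.

**The models.** Let `X'` be a projective variety with a birational map `X --> X'` whose inverse contracts
no divisor, on which the images of the `D i` are `ℚ`-Cartier and some combination of them is ample. The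
coefficients of the pullbacks of the images of the `D i` at the prime divisors `P` over `X` are the
`δ' i P`. The sections of the integral combinations on `X` are sections of the images. Suppose that the
prime divisors `E` on `X` which are contracted are combinations of the `D i`. Then for a combination
`lam = ∑ t E * E + L`, where all `t E > 0` and `L` is the pullback to `X` of an ample combination on `X'`,
the rational combinations near `lam` are semiample on `X'` and their multiples have the same sections
on `X` and on `X'`. This is `IsModel`. (If `X` is `ℚ`-factorial and the `D i` generate the divisor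
classes, the models are all `ℚ`-factorial birational contractions of `X`.)

**The theorem.** There are finitely many models `X 1, ..., X M` and rational polyhedral cones
`C 1, ..., C M` of real combinations such that:
(1) for all integral `ν` in `C j` the combination has the same sections on `X` and on `X j`, and the
multiple `k ν` is base point free on `X j`; the number `k` is the same for all `ν` and `j`. In
particular all real combinations in `C j` are semiample on `X j`.
(2) every pseudo-effective real combination `w` (a limit of rational combinations which have a multiple
with a section) is in one of the `C j`, such that, for every prime divisor `P` over `X`, either the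
coefficients of all `D i` at `P` are the same on `X` and on `X j`, or the coefficient of `w` at `P` is
smaller on `X j` than on `X`.

For the pairs `(X, Δ)` above with `K_X + Δ` pseudo-effective: the log discrepancy of `(X j, Δ j)` at `P` minus
that of `(X, Δ)` is `∑ i, w i * δ i P - ∑ i, w i * δs j i P ≥ 0`, and it is positive unless all coefficients
at `P` are the same, in particular if `P` is a prime divisor on `X` which is contracted. So `(X j, Δ j)`
is a log minimal model of `(X, Δ)`, which is good: `K + Δ j` is semiample. So all these log canonical pairs
have good log minimal models, and finitely many models are enough for all boundaries. This is known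
for klt pairs with big boundary (Birkar, Cascini, Hacon, McKernan), and open in general.

**Relation to the other results.** `MP_c1e25c_ag.AdjointRings` gives the finite generation of the
adjoint rings of log canonical toroidal pairs on the same `X`. Here the models themselves are
constructed, for all classes with real coefficients (the `D i` need not be of the form `K + Δ`), with the
negativity on the contracted divisors, the same sections and the uniform multiple `k`.
`MP_c1e25c_ag.NormalCrossingModels` is the same statement for another class of varieties `Y`: covers of
one projective space which are branched along several hypersurfaces with normal crossings. The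
proof uses the finite generation of the Cox ring (`Q57.CX.main_cox`) and `Pool/Agent/U189/MG`.
-/

set_option autoImplicit false

open FF MvPolynomial Pool.Agent.W602.GT

namespace Pool.Agent.Results.MP_c1e25c_ag.ProductCoverModels

open Pool.Agent.Results.MP_89a3f8_ag.TerminationOfFlips
open Pool.Agent.U660.MD (coneOf)

section defs

variable {K : Type} [Field K] [Algebra ℂ K] {p : ℕ} (N : ℕ) (δ : Fin p → Place ℂ K → ℚ)

/-- The coefficients `δ'` are those of the images of the `D i` on a model `X'` of `X` on which they are
`ℚ`-Cartier and some rational combination of them is ample: all sections of integral combinations on `X`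
are sections on `X'`; and for some combination `lam` all rational combinations near `lam` are
semiample on `X'`, and their integral multiples have the same sections on `X` and on `X'`. -/
def IsModel (δ' : Fin p → Place ℂ K → ℚ) : Prop :=
  (∀ (μ : Fin p → ℤ) (f : K), IsSection N δ μ f → IsSection N δ' μ f) ∧
    ∃ (lam : Fin p → ℚ) (ε : ℚ), 0 < ε ∧ ∀ μ : Fin p → ℚ, (∀ i, |μ i - lam i| ≤ ε) →
      Semiample N δ' μ ∧ ∀ (k : ℕ) (ν : Fin p → ℤ), (∀ i, (k : ℚ) * μ i = ν i) →
        ∀ f : K, IsSection N δ' ν f → IsSection N δ ν f

/-- The real combination `∑ i, w i * D i` is pseudo-effective: it is a limit of rational combinations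
which have a positive integral multiple with a nonzero section. (If some combination of the `D i` is
ample, this is the usual notion.) -/
def IsPseudoeffective (w : Fin p → ℝ) : Prop :=
  ∀ ε : ℝ, 0 < ε → ∃ μ : Fin p → ℚ, (∀ i, |(μ i : ℝ) - w i| ≤ ε) ∧
    ∃ k : ℕ, 1 ≤ k ∧ ∃ ν : Fin p → ℤ, (∀ i, (k : ℚ) * μ i = ν i) ∧
      ∃ s : K, s ≠ 0 ∧ IsSection N δ ν s

end defs

/-- **Finitely many good log terminal models.** Let `K` be the function
field of an abelian cover `Y` of the product of the projective `n i`-spaces which is branched along smooth
hypersurfaces `F i = 0` of the factors, `X` the toroidal modification of `Y` which is given by `fan`, and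
`D i`, `i < p`, toroidal `ℚ`-Cartier divisors on `X` with the degrees `β i t` and the coefficients `c i`.
Suppose that some rational combination of the `D i` is ample on `X`. There are finitely many models
`δs j` and rational polyhedral cones `coneOf (h j)` and `k ≥ 1` such that for all integral `ν` in the cone
of `j` the combination `k ν` is base point free on the model `j`, and `ν` has the same sections on `X`
and on this model; and every pseudo-effective real combination `w` is in the cone of some `j` such that
for every prime divisor `P` over `X` the coefficients of all `D i` at `P` are the same on the model `j`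
as on `X` or the coefficient of `w` at `P` is smaller on the model `j` than on `X`. -/
theorem result (r N R p : ℕ) (n d : Fin r → ℕ) (hr : 1 ≤ r) (hn : ∀ i, 1 ≤ n i)
    (hd : ∀ i, 1 ≤ d i) (hN : N = ∑ i, n i)
    (F : ∀ i, MvPolynomial (Fin (n i + 1)) ℂ) (hF : ∀ i, (F i).IsHomogeneous (d i))
    (hs : ∀ i, Smooth (F i)) (m : Fin R → ℕ) (hm : ∀ j, 1 ≤ m j) (a : Fin R → Fin r → ℕ)
    (hdiv : ∀ j i, m j ∣ a j i * d i)
    (K : Type) [Field K] [Algebra ℂ K] (x : ∀ i, Fin (n i + 1) → K) (hx0 : ∀ i, x i 0 ≠ 0)
    (hbas : IsTranscendenceBasis ℂ (affine x)) (z : Fin R → K)
    (hz : ∀ j, z j ^ m j = ∏ i, (aeval (x i) (F i) / x i 0 ^ d i) ^ a j i)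
    (hgen : IntermediateField.adjoin ℂ (Set.range (affine x) ∪ Set.range z) = ⊤)
    (fan : Finset (Finset (Fin r → ℕ))) (hfan : IsFan m a fan)
    (c : Fin p → (Fin r → ℕ) → ℚ) (hc0 : ∀ i, c i 0 = 0) (β : Fin p → Fin r → ℤ)
    (u : Finset (Fin r → ℕ) → Fin p → Fin r → ℚ)
    (hlin : ∀ σ ∈ fan, ∀ i v, Admissible m a v → InCone σ v → - c i v = ∑ k, u σ i k * v k)
    (δ : Fin p → Place ℂ K → ℚ) (hδ : ∀ i P, δ i P = coefficient F d x (c i) (β i) P)
    (hX : IsSmallModification N δ δ) :
    ∃ (k M : ℕ) (δs : Fin M → Fin p → Place ℂ K → ℚ) (B : Fin M → ℕ)
      (h : ∀ j, Fin (B j) → Fin p → ℤ), 1 ≤ k ∧ (∀ j, IsModel N δ (δs j)) ∧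
      (∀ (j : Fin M) (ν : Fin p → ℤ), (fun i => (ν i : ℝ)) ∈ coneOf (h j) →
        BasePointFree N (δs j) (k • ν) ∧
          ∀ f : K, IsSection N δ ν f ↔ IsSection N (δs j) ν f) ∧
      ∀ w : Fin p → ℝ, IsPseudoeffective N δ w → ∃ j, w ∈ coneOf (h j) ∧
        ∀ P : Place ℂ K, Divisorial N P → (∀ i, δs j i P = δ i P) ∨
          ∑ i, w i * (δs j i P : ℝ) < ∑ i, w i * (δ i P : ℝ) := by
  have hFG := Pool.Agent.Q57.CX.main_cox (N := N) hr hn hN hd hF hs hx0 hbas hm hdiv hz hgen (S := fan)
      ⟨hfan.adm, hfan.full, hfan.cover⟩ hc0 (u := u) hlin (β := β) hδ
  obtain ⟨lam0, hsm⟩ := (Pool.Agent.U660.MD.small_iff δ δ).1 hX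
  obtain ⟨k, M, δs, B, h, hk, hM, hC, hw⟩ := Pool.Agent.U189.MG.models hFG ⟨lam0, hsm⟩
  refine ⟨k, M, δs, B, h, hk, fun j => ?_, hC, hw⟩
  obtain ⟨lam, h1, h2⟩ := hM j
  exact ⟨h1, lam, h2⟩

end Pool.Agent.Results.MP_c1e25c_ag.ProductCoverModels
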